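import Pool.Agent.helper17.SG.SpecB

set_option autoImplicit false

open MeasureTheory Set Metric Filter Topology
open scoped ENNReal NNReal ComplexConjugate

namespace Pool.Agent.SG

/-- **B15**: sizes of images of sets of the circle. -/
theorem B15 (h01 : B01_stmt) (h03 : B03_stmt) (h04 : B04_stmt) (h06 : B06_stmt) : B15_stmt := by
  intro Γ _ A γ E hE hEc
  obtain ⟨-, -, -, -, -, -, hinv, hmeas, -, -⟩ := h01 Γ A
  obtain ⟨hk, -, -, hpt, hkinv, -⟩ := h03 Γ A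
  obtain ⟨h4, -⟩ := h04 Γ A γ
  have hn : ∀ ξ ∈ E, ‖ξ‖ = 1 := fun ξ hξ => by simpa [circ] using hEc hξ
  have hq : ‖A.pt γ⁻¹‖ < 1 := hpt γ⁻¹
  have hpos : ∀ ξ ∈ E, 0 < ‖ξ - A.pt γ⁻¹‖ := by
    intro ξ hξ
    have h1 : ‖ξ‖ - ‖A.pt γ⁻¹‖ ≤ ‖ξ - A.pt γ⁻¹‖ := norm_sub_norm_le _ _
    rw [hn ξ hξ] at h1
    linarith
  have hkk : 1 - ‖A.pt γ⁻¹‖ ^ 2 = A.kk γ := by
    rw [← hkinv γ]
    rfl
  have key : lam (A.act γ⁻¹ ⁻¹' E) = ∫⁻ ξ in E, ENNReal.ofReal (poi (A.pt γ⁻¹) ξ) ∂lam := by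
    have h1 : lam (A.act γ⁻¹ ⁻¹' E) = lax A γ⁻¹ E := by
      rw [lax, Measure.map_apply (hmeas γ⁻¹) hE]
    rw [h1, h06 Γ A γ⁻¹, withDensity_apply _ hE]
  have hkpos := (hk γ).1
  refine ⟨?_, ?_⟩
  · rw [key, ← setLIntegral_const]
    refine setLIntegral_mono' hE fun ξ hξ => ENNReal.ofReal_le_ofReal ?_
    rw [poi, hkk]
    have h1 : ‖ξ - A.pt γ⁻¹‖ ≤ 2 := by
      have := norm_sub_le ξ (A.pt γ⁻¹)
      rw [hn ξ hξ] at this
      linarith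
    have h2 := hpos ξ hξ
    refine div_le_div_of_nonneg_left hkpos.le (by positivity) ?_
    nlinarith
  · intro c hc hcE
    refine ⟨?_, ?_⟩
    · rw [key, ← setLIntegral_const]
      refine setLIntegral_mono' hE fun ξ hξ => ENNReal.ofReal_le_ofReal ?_
      rw [poi, hkk]
      refine div_le_div_of_nonneg_left hkpos.le (by positivity) ?_
      exact pow_le_pow_left₀ hc.le (hcE ξ hξ) 2
    · intro ξ hξ hξE
      have hξ1 : ‖ξ‖ = 1 := by simpa [circ] using hξ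
      have h1 := h4 (A.act γ⁻¹ ξ) (hn _ hξE)
      rw [hinv γ ξ hξ1.le] at h1
      have h2 := hcE _ hξE
      rw [le_div_iff₀ hc, ← h1]
      exact mul_le_mul_of_nonneg_left h2 (norm_nonneg _)

end Pool.Agent.SG
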