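import Pool.Agent.helper80.SG.Spec

/-!
Module LPC of project sg: (MP_b5a345_ag): the cluster conditions are polynomial along lines.
-/

set_option autoImplicit false

namespace Pool.Agent.SG

open MvPolynomial Module Pool.Agent.SV

theorem LPC_line {ι : Type} (x y : ι → ℂ) (i : ι) :
    PolyFun (fun t : ℂ => x i + t * (y i - x i)) :=
  (PolyFun.const (x i)).add (PolyFun.id.mul (PolyFun.const (y i - x i)))

theorem LPC_ptc {ι κ : Type} [DecidableEq κ] (c : ι → κ)
    (T : Finset κ) (a : Fin 3) (x y : (ι → ℂ) × (ι → ℂ)) (i : ι) :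
    PolyFun (fun t : ℂ => ptc c T a (x + t • (y - x)) i) := by
  have h1 := LPC_line x.1 y.1 i
  have h2 := LPC_line x.2 y.2 i
  have e1 : (fun t : ℂ => (x + t • (y - x)).1 i) = fun t : ℂ => x.1 i + t * (y.1 i - x.1 i) := by
    funext t
    simp
  have e2 : (fun t : ℂ => (x + t • (y - x)).2 i) = fun t : ℂ => x.2 i + t * (y.2 i - x.2 i) := by
    funext t
    simp
  rw [← e1] at h1
  rw [← e2] at h2
  unfold ptc
  by_cases hc : c i ∈ T
  · simp only [hc, if_true]
    by_cases ha : a = 0
    · simp only [ha, if_true]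
      exact h1
    · simp only [ha, if_false]
      by_cases hb : a = 1
      · simp only [hb, if_true]
        exact h2
      · simp only [hb, if_false]
        exact h1.add h2
  · simp only [hc, if_false]
    exact h1

theorem LPC (hPLY : PLY_stmt) : LPC_stmt := by
  intro ι κ _ _ _ _ c T d τ x y v j
  obtain ⟨a, i⟩ := j
  simp only [PhiC_apply]
  by_cases h : τ = true ∧ a ≠ 0
  · simp only [if_pos h]
    exact PolyFun.const 0
  · simp only [if_neg h]
    exact (hPLY (ι := ι) (κ := κ)).1 (fun i t => ptc c T a (x + t • (y - x)) i)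
      (LPC_ptc c T a x y) (pderiv i (v : MvPolynomial ι ℂ))

end Pool.Agent.SG
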