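import Pool.Agent.helper17.SG.SpecM

set_option autoImplicit false

open MeasureTheory Set Metric Filter Topology
open scoped ENNReal NNReal ComplexConjugate

namespace Pool.Agent.SG

/-- **M12**: `ν ≪ lam` implies `lam ≪ ν`. -/
theorem M12 (h01 : B01_stmt) (h03 : B03_stmt) (h05 : B05_stmt) (h14 : B14_stmt)
    (h15 : B15_stmt) (h16 : B16_stmt) (hM1 : M01_stmt) (hM2 : M02_stmt) (hM11 : M11_stmt)
    (hP4 : P04_stmt) : M12_stmt := by
  intro Γ _ A W ν hν hac
  obtain ⟨-, -, hcirc, hone, hmul, -, -, hmeas, -, -⟩ := h01 Γ A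
  obtain ⟨hk, -, -, -, -, -⟩ := h03 Γ A
  obtain ⟨hprob, hlc, -, hball, -⟩ := h05
  have : Countable Γ := (h14 Γ A).2.1 hν.disc
  have := hprob
  have := hν.prob
  have hcm : MeasurableSet circ := isClosed_sphere.measurableSet
  obtain ⟨-, -, hnu1, -, hnux, -⟩ := hM1 Γ A W ν hν.toStat
  refine Measure.AbsolutelyContinuous.mk fun N₀ hN₀ hνN₀ => ?_
  set N : Set ℂ := circ ∩ ⋃ γ, A.act γ ⁻¹' N₀ with hNdef
  have hNm : MeasurableSet N :=
    hcm.inter (MeasurableSet.iUnion fun γ => hmeas γ hN₀)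
  have hNc : N ⊆ circ := inter_subset_left
  have hνN : ν N = 0 := by
    refine measure_mono_null inter_subset_right ?_
    refine measure_iUnion_null fun γ => ?_
    rw [← hnux γ N₀ hN₀]
    have h1 := hM2 Γ A W ν hν.toStat 1 γ N₀ hN₀
    rw [hnu1, hνN₀, nonpos_iff_eq_zero, mul_eq_zero] at h1
    exact h1.resolve_left (hP4 Γ W 1 γ)
  have hinvar : ∀ γ, ∀ ξ ∈ circ, A.act γ ξ ∈ N → ξ ∈ N := by
    intro γ ξ hξ hξN
    have hξ1 : ‖ξ‖ = 1 := by simpa [circ] using hξ
    refine ⟨hξ, ?_⟩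
    obtain ⟨δ, hδ⟩ := mem_iUnion.mp hξN.2
    refine mem_iUnion.mpr ⟨δ * γ, ?_⟩
    rw [mem_preimage, hmul δ γ ξ hξ1.le]
    exact hδ
  have hsub : N₀ ⊆ N ∪ circᶜ := by
    intro ξ hξ
    by_cases hc : ξ ∈ circ
    · left
      have hξ1 : ‖ξ‖ = 1 := by simpa [circ] using hc
      refine ⟨hc, mem_iUnion.mpr ⟨1, ?_⟩⟩
      rw [mem_preimage, hone ξ hξ1.le]
      exact hξ
    · exact Or.inr hc
  refine measure_mono_null hsub (measure_union_null ?_ hlc)
  by_contra hN0
  -- the constants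
  obtain ⟨M, -, hM⟩ := hM11 Γ A W ν hν
  obtain ⟨C, cc, hC1, -, hconm, hconν⟩ := hM (1 / 2) (by simp)
  set κ : ℝ := (lam N).toReal with hκdef
  have hκ : 0 < κ := ENNReal.toReal_pos hN0 (measure_ne_top _ _)
  have hκN : ENNReal.ofReal κ = lam N := ENNReal.ofReal_toReal (measure_ne_top _ _)
  set c' : ℝ := κ / 2 with hc'def
  have hc' : 0 < c' := by positivity
  set R : ℝ := C + 1 / c' with hRdef
  have hR : 0 < R := by positivity
  set D : Set ℂ := con A W M C cc ∩ (circ \ N) with hDdef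
  have hDm : MeasurableSet D := hconm.inter (hcm.diff hNm)
  have hlamD : lam D = 0 := by
    refine h16 lam D hDm (Filter.Eventually.of_forall fun η hη => ?_)
    refine ⟨κ / (8 * R), by positivity, fun δ hδ => ?_⟩
    obtain ⟨k, hk2⟩ : ∃ k : ℕ, (1 / 2 : ℝ) ^ k < δ / R :=
      exists_pow_lt_of_lt_one (by positivity) (by norm_num)
    obtain ⟨n, hkn, -, w, -, hw2, hw3, -⟩ := hη.1 k
    have hkw := (hk w).1
    have hkwδ : A.kk w < δ / R := by
      have h1 : (1 / 2 : ℝ) ^ n ≤ (1 / 2 : ℝ) ^ k :=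
        pow_le_pow_of_le_one (by norm_num) (by norm_num) hkn
      linarith
    refine ⟨R * A.kk w, by positivity, ?_, ?_⟩
    · rw [lt_div_iff₀ hR] at hkwδ
      linarith
    set E : Set ℂ := N ∩ {ξ | c' ≤ ‖ξ - A.pt w⁻¹‖} with hEdef
    have hEm : MeasurableSet E := by
      refine hNm.inter (measurableSet_le measurable_const ?_)
      exact (measurable_id.sub_const _).norm
    have hEc : E ⊆ circ := inter_subset_left.trans hNc
    obtain ⟨hlow, hup⟩ := h15 Γ A w E hEm hEc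
    obtain ⟨-, hnear⟩ := hup c' hc' (fun ξ hξ => hξ.2)
    refine ⟨circ ∩ A.act w⁻¹ ⁻¹' E, hcm.inter (hmeas w⁻¹ hEm), ?_, ?_, ?_⟩
    · rintro ξ ⟨hξ, hξE⟩
      have h1 := hnear ξ hξ hξE
      rw [mem_closedBall, dist_eq_norm]
      have h2 : ‖ξ - η‖ ≤ ‖ξ - A.pt w‖ + ‖η - A.pt w‖ := by
        have := norm_sub_le (ξ - A.pt w) (η - A.pt w)
        rwa [sub_sub_sub_cancel_right] at this
      have h3 : R * A.kk w = C * A.kk w + A.kk w / c' := by
        rw [hRdef]
        ring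
      linarith
    · rw [Set.disjoint_left]
      rintro ξ ⟨hξ, hξE⟩ hξD
      exact hξD.2.2 (hinvar w⁻¹ ξ hξ hξE.1)
    · have hlE : ENNReal.ofReal (κ / 2) ≤ lam E := by
        have h1 : lam N ≤ lam E + lam (closedBall (A.pt w⁻¹) c') := by
          refine (measure_mono ?_).trans (measure_union_le _ _)
          intro ξ hξ
          by_cases hξ2 : c' ≤ ‖ξ - A.pt w⁻¹‖
          · exact Or.inl ⟨hξ, hξ2⟩
          · right
            rw [mem_closedBall, dist_eq_norm]
            exact (not_le.mp hξ2).le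
        have h2 := hball (A.pt w⁻¹) c' hc'.le
        have h3 : ENNReal.ofReal κ ≤ lam E + ENNReal.ofReal c' := by
          rw [hκN]
          exact h1.trans (add_le_add le_rfl h2)
        have h4 : ENNReal.ofReal (κ / 2) = ENNReal.ofReal κ - ENNReal.ofReal c' := by
          rw [← ENNReal.ofReal_sub _ hc'.le]
          congr 1
          rw [hc'def]
          ring
        rw [h4]
        exact tsub_le_iff_right.mpr h3
      have hS : lam (A.act w⁻¹ ⁻¹' E) ≤ lam (circ ∩ A.act w⁻¹ ⁻¹' E) := by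
        have h1 : lam (A.act w⁻¹ ⁻¹' E) ≤ lam (circ ∩ A.act w⁻¹ ⁻¹' E) + lam circᶜ := by
          refine (measure_mono ?_).trans (measure_union_le _ _)
          intro ξ hξ
          by_cases hc : ξ ∈ circ
          · exact Or.inl ⟨hc, hξ⟩
          · exact Or.inr hc
        rwa [hlc, add_zero] at h1
      have hb := hball η (R * A.kk w) (by positivity)
      calc ENNReal.ofReal (κ / (8 * R)) * lam (closedBall η (R * A.kk w))
          ≤ ENNReal.ofReal (κ / (8 * R)) * ENNReal.ofReal (R * A.kk w) :=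
            mul_le_mul' le_rfl hb
        _ = ENNReal.ofReal (A.kk w / 4) * ENNReal.ofReal (κ / 2) := by
            rw [← ENNReal.ofReal_mul (by positivity), ← ENNReal.ofReal_mul (by positivity)]
            congr 1
            field_simp
            ring
        _ ≤ ENNReal.ofReal (A.kk w / 4) * lam E := mul_le_mul' le_rfl hlE
        _ ≤ lam (A.act w⁻¹ ⁻¹' E) := hlow
        _ ≤ _ := hS
  have hνD : ν D = 0 := hac hlamD
  have h1 : ν Dᶜ ≤ 1 / 2 := by
    have hs : Dᶜ ⊆ (con A W M C cc)ᶜ ∪ (circᶜ ∪ N) := by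
      intro ξ hξ
      by_cases h2 : ξ ∈ con A W M C cc
      · right
        by_cases h3 : ξ ∈ circ
        · right
          by_contra h4
          exact hξ ⟨h2, h3, h4⟩
        · exact Or.inl h3
      · exact Or.inl h2
    calc ν Dᶜ ≤ ν ((con A W M C cc)ᶜ ∪ (circᶜ ∪ N)) := measure_mono hs
      _ ≤ ν (con A W M C cc)ᶜ + ν (circᶜ ∪ N) := measure_union_le _ _
      _ ≤ 1 / 2 + 0 := add_le_add hconν (by
          rw [measure_union_null hν.supp hνN])
      _ = 1 / 2 := add_zero _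
  have h2 : (1 : ℝ≥0∞) ≤ 1 / 2 := by
    calc (1 : ℝ≥0∞) = ν univ := measure_univ.symm
      _ = ν (D ∪ Dᶜ) := by rw [union_compl_self]
      _ ≤ ν D + ν Dᶜ := measure_union_le _ _
      _ ≤ 0 + 1 / 2 := add_le_add hνD.le h1
      _ = 1 / 2 := zero_add _
  have h3 : (1 / 2 : ℝ≥0∞) < 1 := by
    rw [one_div]
    exact ENNReal.one_half_lt_one
  exact absurd h2 (not_le.mpr h3)

end Pool.Agent.SG
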